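import Pool.Agent.WAX.Stmts
import Pool.Agent.Helper13_WAT.CLV

/-!
# WAX, row CLR: closure under quotients
-/

open scoped BigOperators

noncomputable section

namespace Pool.Agent.PP.TX.H76

open Pool.Agent.Helper51_AWC Pool.Agent.Helper79_WRA Pool.Agent.PP Pool.Agent.PP.KF
open Pool.Agent.PP.K9 Pool.Agent.PP.K9.H97 Pool.Agent.PP.H75 Pool.Agent.PP.T3 Pool.Agent.PP.T2
open Pool.Agent.PP.T5 Pool.Agent.PP.TB Pool.Agent.PP.TV
open Pool.Agent.PP.T8 (Rv Fq Fr Ei Hk Rk Fd In)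
open Pool.Agent.PP.T8.H25 (Ind card_quo)

theorem clr (uwa : TB.UwaStmt) : ClrStmt := by
  intro ℓ _ F _ hF G A _ _ _ _ e V γ f V' γ' hL hL' hix hfq
  obtain ⟨π, hπ, hq⟩ := hfq
  refine ⟨?_, ?_⟩
  · intro r hr
    have h1 := TV.H13.vc_quo (γ := γ) (γ' := γ') π hπ hq
    obtain ⟨W, hW⟩ : ∃ W : Subgroup A,
        W = ((((Vc V γ).subgroupOf V).map π).map V'.subtype) := ⟨_, rfl⟩
    rw [← hW] at h1
    have hWV : W ≤ V' := by
      rw [hW]
      rintro _ ⟨y, -, rfl⟩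
      exact y.2
    have hle : Vc V γ ≤ V := TV.H13.vc_le
    have habW : ∀ a ∈ W, ∀ b ∈ W, a * b = b * a := fun a ha b hb =>
      hL'.ab a (hWV ha) b (hWV hb)
    have hab : ∀ a ∈ Vc V γ, ∀ b ∈ Vc V γ, a * b = b * a := fun a ha b hb =>
      hL.ab a (hle ha) b (hle hb)
    have hmem : ∀ x : Vc V γ, ((π (Subgroup.inclusion hle x) : V') : A) ∈ W := by
      intro x
      rw [hW]
      refine ⟨_, ⟨_, ?_, rfl⟩, rfl⟩
      exact Subgroup.mem_subgroupOf.2 x.2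
    obtain ⟨ψ, hψ⟩ : ∃ ψ : Vc V γ →* W, ∀ x, ((ψ x : W) : A) = π (Subgroup.inclusion hle x) :=
      ⟨{ toFun := fun x => ⟨_, hmem x⟩
         map_one' := Subtype.ext (by
          change ((π (Subgroup.inclusion hle 1) : V') : A) = 1
          rw [map_one, map_one]; rfl)
         map_mul' := fun x y => Subtype.ext (by
          change ((π (Subgroup.inclusion hle (x * y)) : V') : A) =
            π (Subgroup.inclusion hle x) * π (Subgroup.inclusion hle y)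
          rw [map_mul, map_mul]; rfl) }, fun _ => rfl⟩
    have hsur : Function.Surjective ψ := by
      rintro ⟨w, hw⟩
      have hw' := hw
      rw [hW] at hw'
      obtain ⟨y, ⟨v, hv, hvy⟩, hy⟩ := hw'
      refine ⟨⟨v, Subgroup.mem_subgroupOf.1 hv⟩, Subtype.ext ?_⟩
      rw [hψ]
      have e1 : Subgroup.inclusion hle ⟨v, Subgroup.mem_subgroupOf.1 hv⟩ = v := rfl
      rw [e1, hvy]
      exact hy
    have h2 := card_quo hab habW ψ hsur ℓ (ℓ ^ r) hr
    have h3 := (uwa A W habW).1 (Vc V' γ') h1 ℓ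
    unfold Rr
    have h4 : 0 < Nat.card (Uw ℓ W) := Nat.card_pos
    refine Nat.le_of_mul_le_mul_right ?_ h4
    calc Nat.card (Vc V' γ') * Nat.card (Uw ℓ W) ≤ Nat.card W * Nat.card (Uw ℓ (Vc V' γ')) := h3
      _ ≤ (ℓ ^ r * Nat.card (Uw ℓ W)) * Nat.card (Uw ℓ (Vc V' γ')) := Nat.mul_le_mul_right _ h2
      _ = ℓ ^ r * Nat.card (Uw ℓ (Vc V' γ')) * Nat.card (Uw ℓ W) := by ring
  · intro hA s' hs' t' ht'
    obtain ⟨s, hs, hsi⟩ := hq s' hs'
    obtain ⟨t, ht, hti⟩ := hq t' ht'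
    change Ind π s s' at hsi
    change Ind π t t' at hti
    have h1 := ((hsi.mul hti ht.1).mul hsi.inv (inv_mem hs.1)).mul hti.inv (inv_mem ht.1)
    exact h1.cent hπ (hA s hs t ht)

end Pool.Agent.PP.TX.H76
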